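import Mathlib

namespace Pool.Agent.Results.MP_208885_nt.Yes

open Finset

/-- minimal `m`-Markoff triples -/
def O (m : ℕ) : Set (ℕ × ℕ × ℕ) :=
  {t | 0 < t.1 ∧ t.1 ≤ t.2.1 ∧ t.2.1 ≤ t.2.2 ∧ 3 * t.1 * t.2.1 ≤ t.2.2 ∧
    t.1 ^ 2 + t.2.1 ^ 2 + t.2.2 ^ 2 = 3 * t.1 * t.2.1 * t.2.2 + m}

theorem thue (p : ℕ) [Fact p.Prime] (r : ZMod p) :
    ∃ u v : ℤ, (u ≠ 0 ∨ v ≠ 0) ∧ u ^ 2 < p ∧ v ^ 2 < p ∧ (u : ZMod p) = r * v := by
  have hp : p.Prime := Fact.out
  set s := Nat.sqrt p with hs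
  have h1 : p < (s + 1) * (s + 1) := Nat.lt_succ_sqrt p
  have h2 : s * s < p := by
    refine lt_of_le_of_ne (Nat.sqrt_le p) fun h => ?_
    have := (Nat.dvd_prime hp).1 (Dvd.intro _ h)
    have := hp.one_lt
    rcases this_1 : s with _ | _ | k <;> rcases ‹s = 1 ∨ s = p› with h3 | h3 <;> nlinarith
  obtain ⟨x, hx, y, hy, hne, e⟩ := exists_ne_map_eq_of_card_lt_of_maps_to
    (s := range (s + 1) ×ˢ range (s + 1)) (t := (univ : Finset (ZMod p)))
    (by simpa [ZMod.card] using h1) (f := fun x => (x.1 : ZMod p) - r * x.2)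
    (fun _ _ => mem_univ _)
  simp only [mem_product, mem_range] at hx hy
  have h2' : (s : ℤ) * s < p := by exact_mod_cast h2
  refine ⟨(x.1 : ℤ) - y.1, (x.2 : ℤ) - y.2, ?_, ?_, ?_, ?_⟩
  · by_contra h
    push Not at h
    exact hne (Prod.ext (by omega) (by omega))
  · have : |(x.1 : ℤ) - y.1| ≤ s := abs_le.2 ⟨by omega, by omega⟩
    nlinarith [sq_abs ((x.1 : ℤ) - y.1), abs_nonneg ((x.1 : ℤ) - y.1)]
  · have : |(x.2 : ℤ) - y.2| ≤ s := abs_le.2 ⟨by omega, by omega⟩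
    nlinarith [sq_abs ((x.2 : ℤ) - y.2), abs_nonneg ((x.2 : ℤ) - y.2)]
  · push_cast
    linear_combination e

theorem rep (p : ℕ) (hp : p.Prime) (h40 : p % 40 = 21) :
    ∃ b c : ℕ, 0 < b ∧ 0 < c ∧ p = b ^ 2 + 3 * b * c + c ^ 2 := by
  have := Fact.mk hp
  have : Fact (Nat.Prime 5) := ⟨by norm_num⟩
  have h5 : IsSquare ((5 : ℕ) : ZMod p) := by
    rw [← ZMod.exists_sq_eq_prime_iff_of_mod_four_eq_one (p := 5) (q := p) (by norm_num)
      (by omega)]
    refine ⟨1, ?_⟩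
    rw [mul_one, ← Nat.cast_one, ZMod.natCast_eq_natCast_iff']
    omega
  obtain ⟨r, hr⟩ := h5
  obtain ⟨u, v, h0, hu, hv, e⟩ := thue p r
  have hd : (p : ℤ) ∣ 5 * v ^ 2 - u ^ 2 := by
    rw [← ZMod.intCast_zmod_eq_zero_iff_dvd]
    push_cast at hr ⊢
    rw [e, hr]; ring
  obtain ⟨k, hk⟩ := hd
  have hp0 : (0 : ℤ) < p := by exact_mod_cast hp.pos
  have k1 : -1 < k := by nlinarith [sq_nonneg v]
  have k2 : k < 5 := by nlinarith [sq_nonneg u]
  obtain ⟨q, hq⟩ : ∃ q : ℤ, (p : ℤ) = 40 * q + 21 := ⟨p / 40, by omega⟩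
  suffices h : ∃ b c : ℤ, 0 < b ∧ 0 < c ∧ (p : ℤ) = b ^ 2 + 3 * b * c + c ^ 2 by
    obtain ⟨b, c, hb, hc, h⟩ := h
    lift b to ℕ using hb.le
    lift c to ℕ using hc.le
    exact ⟨b, c, by exact_mod_cast hb, by exact_mod_cast hc, by exact_mod_cast h⟩
  clear e
  wlog hu0 : 0 ≤ u ∧ 0 ≤ v generalizing u v
  · exact this |u| |v| (by simpa using h0) (by simpa using hu) (by simpa using hv)
      (by simpa using hk) ⟨abs_nonneg _, abs_nonneg _⟩
  obtain ⟨hu0, hv0⟩ := hu0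
  have m5 : u ^ 2 % 5 = 0 ∨ u ^ 2 % 5 = 1 ∨ u ^ 2 % 5 = 4 := by
    have : u % 5 = 0 ∨ u % 5 = 1 ∨ u % 5 = 2 ∨ u % 5 = 3 ∨ u % 5 = 4 := by omega
    rcases this with h | h | h | h | h <;> simp [pow_two, Int.mul_emod, h]
  interval_cases k
  · exfalso
    have h1 : u ^ 2 = 5 * v ^ 2 := by linarith
    have hv1 : v ≠ 0 := by
      rintro rfl
      simp at h1 h0
      exact h0 h1
    have : Irrational (√((5 : ℕ) : ℝ)) := Nat.Prime.irrational_sqrt (by norm_num)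
    apply this.ne_rat ((u : ℚ) / v)
    have hv2 : (0 : ℝ) < v := by exact_mod_cast lt_of_le_of_ne hv0 (Ne.symm hv1)
    rw [Real.sqrt_eq_iff_mul_self_eq (by positivity) (by push_cast; positivity)]
    have : (u : ℝ) ^ 2 = 5 * v ^ 2 := by exact_mod_cast h1
    push_cast
    field_simp
    linarith
  · rcases lt_trichotomy u v with h | h | h
    · exact ⟨v - u, v + u, by omega, by omega, by linarith⟩
    · subst h
      have : u ^ 2 * 4 = 40 * q + 21 := by linarith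
      omega
    · have : u < 2 * v := by nlinarith
      exact ⟨u - v, 4 * v - 2 * u, by omega, by omega, by linarith⟩
  · omega
  · omega
  · have h1 : u < v := by nlinarith
    have h2 : (v - u) % 2 = 0 := by
      have a1 : u % 2 = 0 ∨ u % 2 = 1 := by omega
      have a2 : v % 2 = 0 ∨ v % 2 = 1 := by omega
      have a3 : u ^ 2 % 2 = u % 2 := by rcases a1 with h | h <;> simp [pow_two, Int.mul_emod, h]
      have a4 : v ^ 2 % 2 = v % 2 := by rcases a2 with h | h <;> simp [pow_two, Int.mul_emod, h]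
      omega
    obtain ⟨b, hb⟩ : ∃ b, v = u + 2 * b := ⟨(v - u) / 2, by omega⟩
    subst hb
    exact ⟨b, u + b, by omega, by omega, by linarith⟩

theorem many : {p : ℕ | p.Prime ∧ p % 40 = 21 ∧
    ∀ s t : ℕ, 0 < s → 0 < t → p + 1 ≠ 2 * s ^ 2 + t ^ 2 + 3 * s ^ 2 * t}.Infinite := by
  intro hfin
  apply ArithmeticFunction.vonMangoldt.not_summable_residueClass_prime_div
    (q := 40) (a := 21) (by decide)
  set f : ℕ → ℝ := fun n => (if n.Prime then
    ArithmeticFunction.vonMangoldt.residueClass (q := 40) 21 n else 0) / n with hf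
  set B : Set ℕ := {n | ∃ s t : ℕ, 0 < s ∧ 0 < t ∧ n + 1 = 2 * s ^ 2 + t ^ 2 + 3 * s ^ 2 * t}
    with hB
  have hf0 : ∀ n, 0 ≤ f n := fun n => by
    have := ArithmeticFunction.vonMangoldt.residueClass_nonneg (q := 40) 21 n
    simp only [hf]; split_ifs <;> positivity
  rw [← summable_subtype_and_compl (s := B)]
  constructor
  · have h1 : ∀ n : B, ∃ st : ℕ × ℕ, 0 < st.1 ∧ 0 < st.2 ∧
        (n : ℕ) + 1 = 2 * st.1 ^ 2 + st.2 ^ 2 + 3 * st.1 ^ 2 * st.2 := fun n => by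
      obtain ⟨s, t, h⟩ := n.2
      exact ⟨(s, t), h⟩
    choose σ h1 h2 h3 using h1
    have hinj : Function.Injective σ := fun n n' e => Subtype.ext (by
      have := h3 n
      rw [e, ← h3 n'] at this
      omega)
    have hs : Summable fun n : ℕ => ((n : ℝ) ^ (6 / 5 : ℝ))⁻¹ :=
      Real.summable_nat_rpow_inv.2 (by norm_num)
    have hs2 := ((hs.mul_of_nonneg hs (fun _ => by positivity) (fun _ => by positivity)).mul_left
      10).comp_injective hinj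
    refine Summable.of_nonneg_of_le (fun n => hf0 n) (fun n => ?_) hs2
    have a1 := h1 n
    have a2 := h2 n
    have a3 := h3 n
    simp only [Function.comp]
    generalize (σ n).1 = s at *
    generalize (σ n).2 = t at *
    generalize (n : ℕ) = N at *
    have b1 : s ^ 2 * t ≤ N := by nlinarith [pow_pos a1 2]
    have b2 : t ^ 2 ≤ N := by nlinarith [pow_pos a1 2]
    have b3 : (s * t) ^ 4 ≤ N ^ 3 := by
      calc (s * t) ^ 4 = (s ^ 2 * t) * (s ^ 2 * t) * t ^ 2 := by ring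
        _ ≤ N * N * N := by gcongr
        _ = _ := by ring
    have hN : (0 : ℝ) < N := by exact_mod_cast lt_of_lt_of_le (pow_pos a2 2) b2
    have b4 : f N ≤ Real.log N / N := by
      simp only [hf]
      gcongr
      split_ifs
      · exact (ArithmeticFunction.vonMangoldt.residueClass_le _ _).trans
          ArithmeticFunction.vonMangoldt_le_log
      · exact Real.log_natCast_nonneg N
    have b5 := Real.log_le_rpow_div hN.le (show (0 : ℝ) < 1 / 10 by norm_num)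
    have b6 : ((s : ℝ) * t) ^ (6 / 5 : ℝ) ≤ (N : ℝ) ^ (9 / 10 : ℝ) := by
      have c1 : ((s : ℝ) * t) ^ 4 ≤ (N : ℝ) ^ 3 := by exact_mod_cast b3
      have c2 := Real.rpow_le_rpow (by positivity) c1 (show (0 : ℝ) ≤ 3 / 10 by norm_num)
      rw [← Real.rpow_natCast, ← Real.rpow_natCast, ← Real.rpow_mul (by positivity),
        ← Real.rpow_mul (by positivity)] at c2
      norm_num at c2 ⊢
      exact c2
    have b7 : (N : ℝ) = (N : ℝ) ^ (1 / 10 : ℝ) * (N : ℝ) ^ (9 / 10 : ℝ) := by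
      rw [← Real.rpow_add hN]; norm_num
    refine b4.trans ?_
    rw [← mul_inv, ← Real.mul_rpow (by positivity) (by positivity), ← div_eq_mul_inv,
      div_le_div_iff₀ hN (by positivity)]
    calc _ ≤ ((N : ℝ) ^ (1 / 10 : ℝ) / (1 / 10)) * (N : ℝ) ^ (9 / 10 : ℝ) := by gcongr
      _ = 10 * ((N : ℝ) ^ (1 / 10 : ℝ) * (N : ℝ) ^ (9 / 10 : ℝ)) := by ring
      _ = _ := by rw [← b7]
  · refine summable_of_hasFiniteSupport ((hfin.preimage Subtype.val_injective.injOn).subset ?_)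
    rintro ⟨n, hn⟩ h
    have h' : f n ≠ 0 := h
    simp only [hf] at h'
    by_cases h1 : n.Prime
    · refine ⟨h1, ?_, fun s t hs ht e => hn ⟨s, t, hs, ht, e⟩⟩
      by_contra h2
      apply h'
      rw [if_pos h1, ArithmeticFunction.vonMangoldt.residueClass, Set.indicator_of_notMem, zero_div]
      intro h3
      apply h2
      have : ((n : ℕ) : ZMod 40) = ((21 : ℕ) : ZMod 40) := h3
      rwa [ZMod.natCast_eq_natCast_iff'] at this
    · simp [h1] at h'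

theorem count (m : ℕ) (h8 : m % 8 = 6)
    (hG : ∀ s t : ℕ, 0 < s → 0 < t → m ≠ 2 * s ^ 2 + t ^ 2 + 3 * s ^ 2 * t) :
    (O m).Finite ∧ (O m).ncard % 3 = 0 := by
  set R := range (m + 1) ×ˢ range (m + 1) ×ˢ range (m + 1) with hR
  set F : ℕ × ℕ × ℕ → Prop := fun t => 0 < t.1 ∧ 0 < t.2.1 ∧ 0 < t.2.2 ∧
    t.1 ^ 2 + t.2.1 ^ 2 + t.2.2 ^ 2 + 3 * t.1 * t.2.1 * t.2.2 = m with hF
  have hFR : ∀ t, F t → t ∈ R := by
    rintro ⟨a, b, c⟩ ⟨-, -, -, h⟩
    simp only [hR, mem_product, mem_range] at h ⊢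
    refine ⟨?_, ?_, ?_⟩ <;> nlinarith [Nat.le_self_pow two_ne_zero a,
      Nat.le_self_pow two_ne_zero b, Nat.le_self_pow two_ne_zero c, Nat.zero_le (3 * a * b * c)]
  set A : Finset (ℕ × ℕ × ℕ) := {t ∈ R | F t ∧ t.1 < t.2.1} with hA
  have mA : ∀ t, t ∈ A ↔ F t ∧ t.1 < t.2.1 := fun t => by
    rw [hA, mem_filter]; exact ⟨fun h => h.2, fun h => ⟨hFR t h.1, h⟩⟩
  have e : O m = ↑(A.image fun t => (t.1, t.2.1, 3 * t.1 * t.2.1 + t.2.2)) := by
    ext ⟨a, b, c⟩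
    simp only [O, Set.mem_setOf_eq, coe_image, Set.mem_image, mem_coe, mA, hF, Prod.mk.injEq]
    constructor
    · rintro ⟨h1, h2, h3, h4, h5⟩
      obtain ⟨f, rfl⟩ := Nat.exists_eq_add_of_le h4
      have h6 : a ^ 2 + b ^ 2 + f ^ 2 + 3 * a * b * f = m := by nlinarith
      have h7 : 0 < f := by
        rcases Nat.eq_zero_or_pos f with rfl | h
        · exfalso
          have sq : ∀ x : ℕ, x ^ 2 % 8 = 0 ∨ x ^ 2 % 8 = 1 ∨ x ^ 2 % 8 = 4 := by
            intro x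
            have : x % 8 < 8 := Nat.mod_lt _ (by norm_num)
            rw [Nat.pow_mod]
            interval_cases x % 8 <;> simp
          have := sq a
          have := sq b
          simp at h6
          omega
        · exact h
      refine ⟨(a, b, f), ⟨⟨h1, by simp; omega, h7, h6⟩, ?_⟩, rfl, rfl, rfl⟩
      refine lt_of_le_of_ne h2 fun (h : a = b) => ?_
      subst h
      exact hG a f h1 h7 (by rw [← h6]; ring)
    · rintro ⟨⟨x, y, f⟩, ⟨⟨h1, h2, h3, h4⟩, h5⟩, rfl, rfl, rfl⟩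
      simp only at *
      exact ⟨h1, h5.le, by nlinarith, by omega, by rw [← h4]; ring⟩
  refine ⟨e ▸ Finset.finite_toSet _, ?_⟩
  rw [e, Set.ncard_coe_finset, card_image_of_injective _ (by
    rintro ⟨a, b, c⟩ ⟨a', b', c'⟩ h
    simp only [Prod.mk.injEq] at h ⊢
    obtain ⟨rfl, rfl, h⟩ := h
    exact ⟨rfl, rfl, by omega⟩)]
  have c1 := card_filter_add_card_filter_not (s := A) (fun t => t.2.1 < t.2.2)
  have c2 := card_filter_add_card_filter_not (s := {t ∈ A | ¬ t.2.1 < t.2.2})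
    (fun t => t.1 < t.2.2)
  have c3 : #{t ∈ ({t ∈ A | ¬ t.2.1 < t.2.2} : Finset _) | t.1 < t.2.2}
      = #{t ∈ A | t.2.1 < t.2.2} := by
    refine card_nbij' (fun t => (t.1, t.2.2, t.2.1)) (fun t => (t.1, t.2.2, t.2.1)) ?_ ?_
      (fun _ _ => rfl) (fun _ _ => rfl)
    · rintro ⟨a, b, c⟩ h
      simp only [coe_filter, mem_filter, mA, hF, Set.mem_setOf_eq] at h ⊢
      obtain ⟨⟨⟨⟨h1, h2, h3, h4⟩, h5⟩, h6⟩, h7⟩ := h
      refine ⟨⟨⟨h1, h3, h2, by rw [← h4]; ring⟩, h7⟩, lt_of_le_of_ne (by omega) ?_⟩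
      rintro rfl
      exact hG c a h2 h1 (by rw [← h4]; ring)
    · rintro ⟨a, b, c⟩ h
      simp only [coe_filter, mem_filter, mA, hF, Set.mem_setOf_eq] at h ⊢
      obtain ⟨⟨⟨h1, h2, h3, h4⟩, h5⟩, h6⟩ := h
      exact ⟨⟨⟨⟨h1, h3, h2, by rw [← h4]; ring⟩, by omega⟩, by omega⟩, h5⟩
  have c4 : #{t ∈ ({t ∈ A | ¬ t.2.1 < t.2.2} : Finset _) | ¬ t.1 < t.2.2}
      = #{t ∈ A | t.2.1 < t.2.2} := by
    refine card_nbij' (fun t => (t.2.2, t.1, t.2.1)) (fun t => (t.2.1, t.2.2, t.1)) ?_ ?_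
      (fun _ _ => rfl) (fun _ _ => rfl)
    · rintro ⟨a, b, c⟩ h
      simp only [coe_filter, mem_filter, mA, hF, Set.mem_setOf_eq] at h ⊢
      obtain ⟨⟨⟨⟨h1, h2, h3, h4⟩, h5⟩, h6⟩, h7⟩ := h
      refine ⟨⟨⟨h3, h1, h2, by rw [← h4]; ring⟩, lt_of_le_of_ne (by omega) ?_⟩, h5⟩
      rintro rfl
      exact hG c b h1 h2 (by rw [← h4]; ring)
    · rintro ⟨a, b, c⟩ h
      simp only [coe_filter, mem_filter, mA, hF, Set.mem_setOf_eq] at h ⊢
      obtain ⟨⟨⟨h1, h2, h3, h4⟩, h5⟩, h6⟩ := h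
      exact ⟨⟨⟨⟨h2, h3, h1, by rw [← h4]; ring⟩, h6⟩, by omega⟩, by omega⟩
  omega

theorem result :
    {m : ℕ | 1 < m ∧ (O m).Finite ∧ (O m).Nonempty ∧ (O m).ncard % 3 = 0}.Infinite := by
  refine (many.image (f := fun p => p + 1) (add_left_injective 1).injOn).mono ?_
  rintro _ ⟨p, ⟨hp, h40, hG⟩, rfl⟩
  obtain ⟨h1, h2⟩ := count (p + 1) (by omega) hG
  refine ⟨by simp only; omega, h1, ?_, h2⟩
  obtain ⟨b, c, hb, hc, e⟩ := rep p hp h40
  refine ⟨(1, b, 3 * b + c), ?_⟩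
  simp only [O, Set.mem_setOf_eq]
  exact ⟨by omega, hb, by omega, by omega, by rw [e]; ring⟩

end Pool.Agent.Results.MP_208885_nt.Yes
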